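import Pool.Agent.Y134.TF.Iso
import Pool.Agent.Y130.Main

/-!
# The Tate conjecture from two Frobenius polynomials
-/

set_option autoImplicit false

universe u

namespace Pool.Agent.Y134.TF

open Polynomial Module Pool.Agent.Y130 Pool.Agent.TH125.Gal Pool.Agent.TH118.SG
open Pool.Agent.H914 Pool.Agent.H914.VarClass Pool.Agent.H914.VarClass.Obj
  Pool.Agent.H914.WeilCohomology Pool.Agent.H281R3.HT Pool.Agent.W552

variable {k : Type u} [Field k] {𝒱 : VarClass k} {ops : CycleOps 𝒱}
  {W : WeilCohomology.{u, 0} ops} {Γ : Type} [Group Γ]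

section
variable {X : GVar W Γ} {A P : Submodule W.K (W.H X.X)}

/-- the properties of the form on the primitive cohomology -/
theorem formOn {χ : Γ →* W.Kˣ}
    (hG : IsGaloisAct χ (W.gr X.X) X.X.dim (W.tr X.X) (algClasses W X.X) X.act)
    (he : Even X.X.dim) (hA : A ≤ algSpan W X.X) (hP : P ≤ W.gr X.X X.X.dim) (hAP : A ⊔ P = ⊤)
    (ho : ∀ a ∈ A, ∀ x ∈ P, W.tr X.X (a * x) = 0) :
    FormOn χ (W.tr X.X) (X.X.dim / 2) P X.act where
  symm := by
    intro x hx y hy
    rw [W.comm (hP hx) (hP hy), (he.mul_left _).neg_one_pow, one_smul]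
  nondeg := by
    intro x hx h
    apply W.nondeg
    intro y
    have hy : y ∈ A ⊔ P := by rw [hAP]; exact Submodule.mem_top
    obtain ⟨a, ha, p, hp, rfl⟩ := Submodule.mem_sup.1 hy
    rw [mul_add, map_add, h p hp, add_zero, ← alg_comm (hA ha), ho a ha x hx]
  act := by
    intro g a
    rw [hG.tr_act, Nat.mul_div_cancel' he.two_dvd]

/-- A class in the span of the algebraic classes of the middle degree is fixed by a subgroup of
finite index up to the character. -/
theorem exists_fix {χ : Γ →* W.Kˣ}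
    (hG : IsGaloisAct χ (W.gr X.X) X.X.dim (W.tr X.X) (algClasses W X.X) X.act) {j : ℕ}
    {x : W.H X.X} (hx : x ∈ Submodule.span W.K (algClasses W X.X j)) :
    ∃ Δ : Subgroup Γ, Δ.FiniteIndex ∧ ∀ g ∈ Δ, X.act g x = (χ g : W.K) ^ j • x := by
  induction hx using Submodule.span_induction with
  | mem x hx => exact hG.cl_fix j x hx
  | zero => exact ⟨⊤, inferInstance, fun g _ => by rw [map_zero, smul_zero]⟩
  | add x y _ _ hx hy =>
    obtain ⟨Δ, hΔ, h1⟩ := hx
    obtain ⟨Δ', hΔ', h2⟩ := hy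
    refine ⟨Δ ⊓ Δ', inferInstance, fun g hg => ?_⟩
    rw [map_add, h1 g hg.1, h2 g hg.2, smul_add]
  | smul c x _ hx =>
    obtain ⟨Δ, hΔ, h1⟩ := hx
    refine ⟨Δ, hΔ, fun g hg => ?_⟩
    rw [map_smul, h1 g hg, smul_comm]

end

theorem middle_of {K₀ : Type} [Field K₀] [CharZero K₀] [IsAlgClosed W.K] [Algebra K₀ W.K]
    {χ : Γ →* W.Kˣ} {X : GVar W Γ} {A P : Submodule W.K (W.H X.X)}
    (hG : IsGaloisAct χ (W.gr X.X) X.X.dim (W.tr X.X) (algClasses W X.X) X.act)
    (he : Even X.X.dim) (hA : A ≤ algSpan W X.X) (hP : P ≤ W.gr X.X X.X.dim) (hAP : A ⊔ P = ⊤)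
    (ho : ∀ a ∈ A, ∀ x ∈ P, W.tr X.X (a * x) = 0)
    {V : Type} [AddCommGroup V] [Module K₀ V] [FiniteDimensional K₀ V]
    {b : V →ₗ[K₀] V →ₗ[K₀] K₀} {ρ : Representation K₀ Γ V} {j : V →+ W.H X.X}
    (hj : IsRational χ (W.tr X.X) (X.X.dim / 2) P X.act b ρ j) {g₁ g₂ : Γ} {ε₁ ε₂ : K₀}
    {R₁ R₂ : K₀[X]} (hT : TwoPolynomials W.K ρ g₁ g₂ ε₁ R₁ ε₂ R₂) :
    transcendental W X.X = P ∧ HomEqNum W X.X ∧
      ∀ z ∈ algSpan W X.X, (∀ c ∈ algSpan W X.X, W.tr X.X (z * c) = 0) → z = 0 := by
  have hF := formOn hG he hA hP hAP ho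
  have hirr := hj.irred hF hT
  have hE := hj.twoElements hF hT
  have hdim : 2 * (X.X.dim / 2) = X.X.dim := Nat.mul_div_cancel' he.two_dvd
  -- there are no algebraic classes in `P`
  have hbot : algSpan W X.X ⊓ P = ⊥ := by
    rcases hirr ⊤ inferInstance (algSpan W X.X ⊓ P) inf_le_right (by
      rintro g - x ⟨hx, hx'⟩
      refine ⟨act_algSpan (isGalois hG) g hx, ?_⟩
      have h1 := nrm_mem hj g x hx'
      have h2 : X.act g x = ((χ g : W.K) ^ (X.X.dim / 2)) • nrm χ (X.X.dim / 2) X.act g x := by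
        change X.act g x = ((χ g : W.K) ^ (X.X.dim / 2)) •
          (((χ g : W.K) ^ (X.X.dim / 2))⁻¹ • X.act g x)
        rw [smul_smul, mul_inv_cancel₀ (pow_ne_zero _ (Units.ne_zero _)), one_smul]
      change X.act g x ∈ P
      rw [h2]
      exact Submodule.smul_mem _ _ h1) with h1 | h1
    · exact h1
    · exfalso
      obtain ⟨v, hv0, hv, hvv⟩ := exists_vector hE.nondeg (hE.inv g₁) hE.sign hE.charpoly₁
        (not_root hE.irreducible hE.degree ε₁)
      have h2 : j v ∈ algSpan W X.X := by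
        have h3 : j v ∈ algSpan W X.X ⊓ P := by rw [h1]; exact hj.mem v
        exact h3.1
      have h3 : j v ∈ W.gr X.X (2 * (X.X.dim / 2)) := by
        rw [hdim]
        exact hP (hj.mem v)
      obtain ⟨Δ, hΔ, h4⟩ := exists_fix hG (algSpan_gr h2 h3)
      have h5 : ∀ g ∈ Δ, ρ g v = v := by
        intro g hg
        have h6 := h4 g hg
        rw [hj.equivariant] at h6
        have h7 : j (ρ g v) = j v := by
          have h8 := congrArg (fun t => ((χ g : W.K) ^ (X.X.dim / 2))⁻¹ • t) h6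
          simp only [smul_smul] at h8
          rwa [inv_mul_cancel₀ (pow_ne_zero _ (Units.ne_zero _)), one_smul, one_smul] at h8
        have h8 : j (ρ g v - v) = 0 := by rw [map_sub, h7, sub_self]
        exact sub_eq_zero.1 (hj.injective h8)
      have h6 := hE.span_top hvv hv hΔ
      have h7 : Submodule.span K₀ {x | ∃ g ∈ Δ, x = ρ g v} ≤ Submodule.span K₀ {v} := by
        rw [Submodule.span_le]
        rintro _ ⟨g, hg, rfl⟩
        rw [h5 g hg]
        exact Submodule.mem_span_singleton_self v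
      rw [h6] at h7
      have h8 : finrank K₀ V ≤ 1 := by
        rw [← finrank_top K₀ V, ← top_le_iff.1 h7, finrank_span_singleton hv0]
      have h9 : (ρ g₁).charpoly.natDegree ≤ 1 := by rw [LinearMap.charpoly_natDegree]; exact h8
      rw [hT.charpoly₁, natDegree_mul (X_sub_C_ne_zero _) hT.irreducible.ne_zero,
        natDegree_X_sub_C] at h9
      have h10 := hT.degree
      omega
  -- all algebraic classes are in `A`
  have hAeq : ∀ x ∈ algSpan W X.X, x ∈ A := by
    intro x hx
    have h1 : x ∈ A ⊔ P := by rw [hAP]; exact Submodule.mem_top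
    obtain ⟨a, ha, p, hp, rfl⟩ := Submodule.mem_sup.1 h1
    have h2 : p ∈ algSpan W X.X ⊓ P := by
      refine ⟨?_, hp⟩
      have h3 := (algSpan W X.X).sub_mem hx (hA ha)
      rwa [add_sub_cancel_left] at h3
    rw [hbot, Submodule.mem_bot] at h2
    rw [h2, add_zero]
    exact ha
  have hPT : P ≤ transcendental W X.X := by
    intro x hx
    rw [mem_trans']
    intro c hc
    rw [bil_apply, ← alg_comm hc]
    exact ho c (hAeq c hc) x hx
  have hnz : ∀ z ∈ algSpan W X.X, (∀ c ∈ algSpan W X.X, W.tr X.X (z * c) = 0) → z = 0 := by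
    intro z hz key
    apply W.nondeg
    intro y
    have hy : y ∈ A ⊔ P := by rw [hAP]; exact Submodule.mem_top
    obtain ⟨a, ha, p, hp, rfl⟩ := Submodule.mem_sup.1 hy
    rw [mul_add, map_add, ho _ (hAeq _ hz) p hp, add_zero]
    exact key a (hA ha)
  refine ⟨le_antisymm ?_ hPT, ?_, hnz⟩
  · intro t ht
    have h1 : t ∈ A ⊔ P := by rw [hAP]; exact Submodule.mem_top
    obtain ⟨a, ha, p, hp, rfl⟩ := Submodule.mem_sup.1 h1
    have h2 : a ∈ transcendental W X.X := by
      have h3 := (transcendental W X.X).sub_mem ht (hPT hp)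
      rwa [add_sub_cancel_right] at h3
    have h3 : a = 0 := by
      apply W.nondeg
      intro y
      have hy : y ∈ A ⊔ P := by rw [hAP]; exact Submodule.mem_top
      obtain ⟨a', ha', p', hp', rfl⟩ := Submodule.mem_sup.1 hy
      rw [mul_add, map_add, ho a ha p' hp', add_zero]
      exact trans_alg h2 (hA ha')
    rw [h3, zero_add]
    exact hp
  · intro i hi z hz hzw
    have key : ∀ c ∈ algSpan W X.X, W.tr X.X (W.cl X.X z * c) = 0 := by
      intro c hc
      induction hc using Submodule.span_induction with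
      | mem c hc =>
        obtain ⟨l, hl⟩ := Set.mem_iUnion.1 hc
        obtain ⟨w, hw, rfl⟩ := hl
        by_cases hil : i + l = X.X.dim
        · have h2 : l = X.X.dim - i := by omega
          have h3 := hzw w (h2 ▸ hw)
          have h4 : X.X.IsCyc X.X.dim (ops.mul z w) := by
            have := ops.mul_mem hz hw
            rwa [hil] at this
          rw [← W.cl_mul, W.tr_cl h4, h3]
          simp
        · refine W.tr_eq_zero (W.mul_mem (W.cl_mem hz) (W.cl_mem hw)) ?_
          omega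
      | zero => rw [mul_zero, map_zero]
      | add x y _ _ hx hy => rw [mul_add, map_add, hx, hy, add_zero]
      | smul c x _ hx => rw [mul_smul_comm, map_smul, hx, smul_zero]
    exact hnz _ (alg_mem ⟨z, hz, rfl⟩) key

theorem twoVar {χ : Γ →* W.Kˣ} [IsAlgClosed W.K] {X : PVar W Γ} {E : Γ → Set W.K}
    (h : X.Two χ E) :
    transcendental W X.X = X.P ∧ X.Trans ∧
      IsolatedVar χ X.toGVar E (fun _ : Unit => transcendental W X.X) id ⊤ := by
  obtain ⟨hG, he, hP, ⟨A, hA, hAP, ho⟩,
    ⟨K₀, _, _, _, F, j, hj, g₁, g₂, ε₁, R₁, ε₂, R₂, a, hT, ha⟩⟩ := h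
  have hA' : A ≤ algSpan W X.X := hA
  obtain ⟨hTP, hnum, hnz⟩ := middle_of hG he hA' hP hAP ho hj hT
  have hF := formOn hG he hA' hP hAP ho
  have hdim : 2 * (X.X.dim / 2) = X.X.dim := Nat.mul_div_cancel' he.two_dvd
  have hirr : IrredAct X.act X.P := hj.irred hF hT
  have hspan : ∀ z : W.H X.X, (∀ j, ∀ c ∈ algClasses W X.X j, W.tr X.X (z * c) = 0) →
      ∀ c ∈ algSpan W X.X, W.tr X.X (z * c) = 0 := by
    intro z hz c hc
    induction hc using Submodule.span_induction with
    | mem c hc =>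
      obtain ⟨l, hl⟩ := Set.mem_iUnion.1 hc
      exact hz l c hl
    | zero => rw [mul_zero, map_zero]
    | add x y _ _ hx hy => rw [mul_add, map_add, hx, hy, add_zero]
    | smul c x _ hx => rw [mul_smul_comm, map_smul, hx, smul_zero]
  have hne : X.P ≠ ⊥ := by
    intro h0
    have h1 := hj.rank
    rw [h0, finrank_bot] at h1
    have h2 : (F.rep g₁).charpoly.natDegree = 0 := by rw [LinearMap.charpoly_natDegree, ← h1]
    rw [hT.charpoly₁, natDegree_mul (X_sub_C_ne_zero _) hT.irreducible.ne_zero,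
      natDegree_X_sub_C] at h2
    omega
  refine ⟨hTP, ⟨?_, ?_, hirr⟩, hG, ⟨hnum, hTP ▸ hP⟩, ?_⟩
  · intro i c hc h0
    exact hnz c (Submodule.subset_span (Set.mem_iUnion.2 ⟨i, hc⟩)) (hspan c h0)
  · intro x
    rw [← hTP, mem_trans']
    constructor
    · intro h1 l c hc
      exact h1 c (Submodule.subset_span (Set.mem_iUnion.2 ⟨l, hc⟩))
    · intro h1 c hc
      exact hspan x h1 c hc
  rw [hTP]
  refine
    { blocks :=
        { nonempty := ⟨()⟩
          span := iSup_const
          ne := fun _ => hne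
          star_star := fun _ => rfl
          orth := fun c d hcd => absurd rfl hcd
          index := inferInstance
          stable := ?_
          irreducible := fun _ => hirr }
      isolated := ?_
      det := fun c hc => absurd rfl hc }
  · intro g _ c x hx
    have h1 := nrm_mem hj g x hx
    have h2 : X.act g x = ((χ g : W.K) ^ (X.X.dim / 2)) • nrm χ (X.X.dim / 2) X.act g x := by
      change X.act g x = ((χ g : W.K) ^ (X.X.dim / 2)) •
        (((χ g : W.K) ^ (X.X.dim / 2))⁻¹ • X.act g x)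
      rw [smul_smul, mul_inv_cancel₀ (pow_ne_zero _ (Units.ne_zero _)), one_smul]
    rw [h2]
    exact Submodule.smul_mem _ _ h1
  · intro c
    right
    obtain ⟨v, hv, hv'⟩ := hj.isolated hT ha
    rw [hdim] at hv'
    exact ⟨g₁, _, v, hv, hv'⟩

theorem PTower_mono {ι : Type} {X : ι → GVar W Γ} {Z : GVar W Γ} {adm adm' : ι → ℕ → Prop}
    (hadm : ∀ i n, adm i n → adm' i n) {S : Set ι} {Y : GVar W Γ} (h : PTower X Z adm S Y) :
    PTower X Z adm' S Y := by
  induction h with
  | base => exact PTower.base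
  | step i n _ hi hn hP ih => exact PTower.step i n ih hi (hadm i n hn) hP

/-- **The Tate conjecture from two Frobenius polynomials.** -/
theorem tate_two [IsAlgClosed W.K] {χ : Γ →* W.Kˣ} {ι : Type} {X : ι → PVar W Γ} {Z : GVar W Γ}
    (h : ∀ i, (X i).Two χ (otherEig (fun j => (X j).toGVar) Z i)) {S : Set ι} {Y : GVar W Γ}
    (hY : PTower (fun i => (X i).toGVar) Z (fun i n => n + 1 < (X i).rank) S Y) :
    TateConjecture χ Y ↔ TateConjecture χ Z := by
  have hP : ∀ i, transcendental W (X i).X = (X i).P := fun i => (twoVar (h i)).1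
  exact tate_isolated (S := S) (C := fun _ => Unit) (U := fun i _ => transcendental W (X i).X)
    (star := fun _ => id) (Δ := fun _ => ⊤) (fun i => (twoVar (h i)).2.2)
    (PTower_mono (fun i n hn _ _ _ => by
      change n + 1 < finrank W.K (transcendental W (X i).X)
      rw [hP i]; exact hn) hY) (fun i _ => Or.inl inferInstance)

end Pool.Agent.Y134.TF
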