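import Pool.Agent.Y134.TF.Rat

/-!
# Irreducibility over the algebraically closed field
-/

set_option autoImplicit false

namespace Pool.Agent.Y134.TF

open Polynomial Module Pool.Agent.Y134.Two Pool.Agent.TH125.Gal Pool.Agent.Y130

section
variable {K : Type} [Field K] {V : Type} [AddCommGroup V] [Module K V]

lemma aeval_restrict {c : Module.End K V} {W : Submodule K V} (hW : ∀ x ∈ W, c x ∈ W) (S : K[X])
    (w : W) : (aeval c S) w = ((aeval (c.restrict hW) S) w : V) := by
  induction S using Polynomial.induction_on' with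
  | add p q hp hq => rw [map_add, map_add, LinearMap.add_apply, LinearMap.add_apply, hp, hq,
      Submodule.coe_add]
  | monomial n a =>
    rw [aeval_monomial, aeval_monomial, Module.End.mul_apply, Module.End.mul_apply,
      Module.algebraMap_end_apply, Module.algebraMap_end_apply, Submodule.coe_smul]
    congr 1
    induction n with
    | zero => rfl
    | succ n ih =>
      rw [pow_succ', Module.End.mul_apply, ih, pow_succ', Module.End.mul_apply]
      rfl

variable [CharZero K] [FiniteDimensional K V] {G : Type} [Group G]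

theorem TwoElements.exists_proj {E : Type} [Field E] [IsAlgClosed E] [Algebra K E]
    {ρ : Representation K G V} {b : V →ₗ[K] V →ₗ[K] K} {g₁ g₂ : G} {ε₁ : K} {R₁ : K[X]} {ε₂ : K}
    {R₂ : K[X]} (h : TwoElements E ρ b g₁ g₂ ε₁ R₁ ε₂ R₂) {v : V} (hvv : b v v ≠ 0)
    (hv : ρ g₁ v = ε₁ • v) {m : ℕ} (hm : 0 < m) :
    ∃ (S : K[X]) (κ : K), κ ≠ 0 ∧ ∀ x, (aeval (ρ g₁ ^ m) S) x = (κ * b v x) • v := by
  classical
  have hR1 := not_root h.irreducible h.degree 1
  have hR2 := not_root h.irreducible h.degree (-1)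
  have hW := perp_le (h.inv g₁) hvv hv
  obtain ⟨-, -, hcp⟩ := charpoly_restrict h.nondeg (h.inv g₁) h.charpoly₁ hR1 hR2 hvv hv hW
  set W := perp b v with hWdef
  set f : Module.End K W := (ρ g₁).restrict hW with hf
  have hirr : Irreducible f.charpoly := by rw [hcp]; exact h.irreducible
  have hrat : NoRatio E f.charpoly := by
    rw [hcp]
    intro x y hx hy n hn hxy
    exact h.ratio x y (by rw [map_mul, hx, mul_zero]) (by rw [map_mul, hy, mul_zero]) n hn hxy
  have hfpow : ∀ (n : ℕ) (x : W), ((f ^ n) x : V) = (ρ g₁ ^ n) x := by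
    intro n x
    induction n with
    | zero => rfl
    | succ n ih =>
      rw [pow_succ', Module.End.mul_apply, pow_succ', Module.End.mul_apply, ← ih]
      rfl
  have hWm : ∀ x ∈ W, (ρ g₁ ^ m) x ∈ W := by
    intro x hx
    have := ((f ^ m) ⟨x, hx⟩).2
    rwa [hfpow] at this
  have hcW : (ρ g₁ ^ m).restrict hWm = f ^ m := by
    refine LinearMap.ext fun x => Subtype.ext ?_
    rw [hfpow]
    rfl
  have hvm : (ρ g₁ ^ m) v = (ε₁ ^ m) • v := by
    have : ∀ n : ℕ, (ρ g₁ ^ n) v = (ε₁ ^ n) • v := by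
      intro n
      induction n with
      | zero => simp
      | succ n ih => rw [pow_succ', Module.End.mul_apply, ih, map_smul, hv, smul_smul, pow_succ]
    exact this m
  have hv0 : v ≠ 0 := by
    rintro rfl
    exact hvv (by simp)
  have hS : ((f ^ m).charpoly).eval (ε₁ ^ m) ≠ 0 := by
    intro h0
    have h1 : Module.End.HasEigenvalue (f ^ m) (ε₁ ^ m) := by
      rw [Module.End.hasEigenvalue_iff_isRoot_charpoly]
      exact h0
    obtain ⟨w, hw⟩ := h1.exists_hasEigenvector
    have h2 := eq_top_of_stable (E := E) hirr hrat hm (U := Submodule.span K {w}) (by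
      intro x hx
      obtain ⟨a, rfl⟩ := Submodule.mem_span_singleton.1 hx
      rw [map_smul, hw.apply_eq_smul]
      exact Submodule.smul_mem _ _ (Submodule.smul_mem _ _ (Submodule.mem_span_singleton_self w)))
      (by
        intro h3
        exact hw.2 (Submodule.span_singleton_eq_bot.1 h3))
    have h3 : finrank K W ≤ 1 := by
      rw [← finrank_top K W, ← h2, finrank_span_singleton hw.2]
    have h4 := h.degree
    rw [← hcp, LinearMap.charpoly_natDegree] at h4
    exact absurd h4 (not_lt.2 h3)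
  refine ⟨(f ^ m).charpoly, ((f ^ m).charpoly).eval (ε₁ ^ m) / b v v, div_ne_zero hS hvv, ?_⟩
  intro x
  have h1 : x - (b v x / b v v) • v ∈ W := by
    rw [hWdef, mem_perp, map_sub, map_smul, smul_eq_mul, div_mul_cancel₀ _ hvv, sub_self]
  have h2 : (aeval (ρ g₁ ^ m) (f ^ m).charpoly) (x - (b v x / b v v) • v) = 0 := by
    have h3 := aeval_restrict hWm (f ^ m).charpoly ⟨_, h1⟩
    rw [hcW, LinearMap.aeval_self_charpoly, LinearMap.zero_apply, ZeroMemClass.coe_zero] at h3
    exact h3
  have h3 : (aeval (ρ g₁ ^ m) (f ^ m).charpoly) v = ((f ^ m).charpoly).eval (ε₁ ^ m) • v :=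
    Module.End.aeval_apply_of_hasEigenvector
      ⟨Module.End.mem_eigenspace_iff.2 hvm, hv0⟩
  rw [map_sub, map_smul, h3, sub_eq_zero] at h2
  rw [h2, smul_smul]
  congr 1
  field_simp

end

section
variable {K₀ K A V : Type} [Field K₀] [CharZero K₀] [Field K] [IsAlgClosed K] [Algebra K₀ K]
  [Ring A] [Algebra K A] [AddCommGroup V] [Module K₀ V] [FiniteDimensional K₀ V] {Γ : Type}
  [Group Γ] {χ : Γ →* Kˣ} {tr : A →ₗ[K] K} {r : ℕ} {T : Submodule K A} {act : Γ →* (A ≃ₐ[K] A)}
  {b : V →ₗ[K₀] V →ₗ[K₀] K₀} {ρ : Representation K₀ Γ V} {j : V →+ A}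

/-- The normalized operator. -/
noncomputable def nrm (χ : Γ →* Kˣ) (r : ℕ) (act : Γ →* (A ≃ₐ[K] A)) (g : Γ) : Module.End K A :=
  ((χ g : K) ^ r)⁻¹ • (act g).toLinearMap

lemma nrm_j (h : IsRational χ tr r T act b ρ j) (g : Γ) (v : V) :
    nrm χ r act g (j v) = j (ρ g v) := by
  change ((χ g : K) ^ r)⁻¹ • act g (j v) = _
  rw [h.equivariant, smul_smul, inv_mul_cancel₀ (pow_ne_zero _ (Units.ne_zero _)), one_smul]

lemma aeval_nrm (h : IsRational χ tr r T act b ρ j) (g : Γ) (S : K₀[X]) (v : V) :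
    (aeval (nrm χ r act g) (S.map (algebraMap K₀ K))) (j v) = j ((aeval (ρ g) S) v) := by
  induction S using Polynomial.induction_on' with
  | add p q hp hq =>
    rw [Polynomial.map_add, map_add, map_add, LinearMap.add_apply, LinearMap.add_apply, map_add,
      hp, hq]
  | monomial n a =>
    rw [Polynomial.map_monomial, aeval_monomial, aeval_monomial, Module.End.mul_apply,
      Module.End.mul_apply, Module.algebraMap_end_apply, Module.algebraMap_end_apply, h.smul]
    congr 1
    induction n with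
    | zero => rfl
    | succ n ih =>
      rw [pow_succ', Module.End.mul_apply, ih, pow_succ', Module.End.mul_apply, nrm_j h]

theorem IsRational.irred (h : IsRational χ tr r T act b ρ j) (hF : FormOn χ tr r T act)
    {g₁ g₂ : Γ} {ε₁ : K₀} {R₁ : K₀[X]} {ε₂ : K₀} {R₂ : K₀[X]}
    (h2 : TwoPolynomials K ρ g₁ g₂ ε₁ R₁ ε₂ R₂) : IrredAct act T := by
  have hE := h.twoElements hF h2
  obtain ⟨v, hv0, hv, hvv⟩ := exists_vector hE.nondeg (hE.inv g₁) hE.sign hE.charpoly₁
    (not_root hE.irreducible hE.degree ε₁)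
  -- stable subspaces which contain the vector
  have keyA : ∀ Δ : Subgroup Γ, Δ.FiniteIndex → ∀ U ≤ T, (∀ g ∈ Δ, ∀ a ∈ U, act g a ∈ U) →
      j v ∈ U → U = T := by
    intro Δ hΔ U hU hst hvU
    refine le_antisymm hU ?_
    have h1 := hE.span_top hvv hv hΔ
    have h3 : ∀ x : V, j x ∈ U := by
      intro x
      have hx : x ∈ Submodule.span K₀ {x | ∃ g ∈ Δ, x = ρ g v} := by
        rw [h1]
        exact Submodule.mem_top
      induction hx using Submodule.span_induction with
      | mem x hx =>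
        obtain ⟨g, hg, rfl⟩ := hx
        rw [← nrm_j h]
        exact U.smul_mem _ (hst g hg _ hvU)
      | zero => rw [map_zero]; exact U.zero_mem
      | add x y _ _ hx hy => rw [map_add]; exact U.add_mem hx hy
      | smul c x _ hx => rw [h.smul]; exact U.smul_mem _ hx
    rw [← h.span, Submodule.span_le]
    rintro _ ⟨x, rfl⟩
    exact h3 x
  -- stable subspaces which do not contain the vector
  have keyB : ∀ Δ : Subgroup Γ, Δ.FiniteIndex → ∀ U ≤ T, (∀ g ∈ Δ, ∀ a ∈ U, act g a ∈ U) →
      j v ∉ U → ∀ u ∈ U, tr (j v * u) = 0 := by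
    intro Δ hΔ U hU hst hvU u hu
    obtain ⟨m, hm, -, hmΔ⟩ := Δ.exists_pow_mem_of_index_ne_zero hΔ.index_ne_zero g₁
    obtain ⟨S, κ, hκ, hS⟩ := hE.exists_proj hvv hv hm
    have h1 : ∀ t ∈ T, (aeval (nrm χ r act (g₁ ^ m)) (S.map (algebraMap K₀ K))) t
        = (algebraMap K₀ K κ * tr (j v * t)) • j v := by
      intro t ht
      rw [← h.span] at ht
      induction ht using Submodule.span_induction with
      | mem x hx =>
        obtain ⟨x, rfl⟩ := hx
        rw [aeval_nrm h, map_pow, hS, h.smul, h.form, map_mul]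
      | zero => rw [map_zero, mul_zero, map_zero, mul_zero, zero_smul]
      | add x y _ _ hx hy => rw [map_add, hx, hy, mul_add, map_add, mul_add, add_smul]
      | smul c x _ hx =>
        rw [map_smul, hx, mul_smul_comm, map_smul, smul_smul, smul_eq_mul]
        congr 1
        ring
    have h3 : (aeval (nrm χ r act (g₁ ^ m)) (S.map (algebraMap K₀ K))) u ∈ U := by
      have hstab : ∀ x ∈ U, nrm χ r act (g₁ ^ m) x ∈ U :=
        fun x hx => U.smul_mem _ (hst _ hmΔ x hx)
      have h4 := aeval_restrict hstab (S.map (algebraMap K₀ K)) ⟨u, hu⟩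
      rw [h4]
      exact Submodule.coe_mem _
    rw [h1 u (hU hu)] at h3
    by_contra hne
    apply hvU
    have h5 : algebraMap K₀ K κ * tr (j v * u) ≠ 0 :=
      mul_ne_zero ((_root_.map_ne_zero _).2 hκ) hne
    have h6 := U.smul_mem (algebraMap K₀ K κ * tr (j v * u))⁻¹ h3
    rwa [smul_smul, inv_mul_cancel₀ h5, one_smul] at h6
  intro Δ hΔ U hU hst
  by_cases hvU : j v ∈ U
  · exact Or.inr (keyA Δ hΔ U hU hst hvU)
  · left
    have hB := keyB Δ hΔ U hU hst hvU
    -- the orthogonal complement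
    let P : Submodule K A :=
      { carrier := {t | t ∈ T ∧ ∀ u ∈ U, tr (t * u) = 0}
        add_mem' := by
          rintro x y ⟨hx, hx'⟩ ⟨hy, hy'⟩
          refine ⟨T.add_mem hx hy, fun u hu => ?_⟩
          rw [add_mul, map_add, hx' u hu, hy' u hu, add_zero]
        zero_mem' := ⟨T.zero_mem, fun u _ => by rw [zero_mul, map_zero]⟩
        smul_mem' := by
          rintro c x ⟨hx, hx'⟩
          refine ⟨T.smul_mem c hx, fun u hu => ?_⟩
          rw [smul_mul_assoc, map_smul, hx' u hu, smul_zero] }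
    have hTst : ∀ g, ∀ x ∈ T, act g x ∈ T := by
      intro g x hx
      rw [← h.span] at hx ⊢
      induction hx using Submodule.span_induction with
      | mem x hx =>
        obtain ⟨x, rfl⟩ := hx
        rw [h.equivariant]
        exact Submodule.smul_mem _ _ (Submodule.subset_span ⟨_, rfl⟩)
      | zero => rw [map_zero]; exact Submodule.zero_mem _
      | add x y _ _ hx hy => rw [map_add]; exact Submodule.add_mem _ hx hy
      | smul c x _ hx => rw [map_smul]; exact Submodule.smul_mem _ _ hx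
    have hP := keyA Δ hΔ P (fun x hx => hx.1) (by
      rintro g hg x ⟨hx, hx'⟩
      refine ⟨hTst g x hx, fun u hu => ?_⟩
      have h3 : u = act g (act g⁻¹ u) := by
        rw [← AlgEquiv.mul_apply, ← map_mul, mul_inv_cancel, map_one, AlgEquiv.one_apply]
      have h4 : act g x * u = act g (x * act g⁻¹ u) := by
        rw [map_mul]
        rw [← h3]
      rw [h4, hF.act, hx' _ (hst _ (Δ.inv_mem hg) u hu), mul_zero])
      ⟨h.mem v, fun u hu => hB u hu⟩
    rw [eq_bot_iff]
    intro u hu
    rw [Submodule.mem_bot]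
    apply hF.nondeg u (hU hu)
    intro y hy
    rw [hF.symm u (hU hu) y hy]
    rw [← hP] at hy
    exact hy.2 u hu

end

end Pool.Agent.Y134.TF
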