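import Pool.Agent.Y134.Two.Main

/-!
# Two isometries: a stable line gives a square
-/

set_option autoImplicit false

namespace Pool.Agent.Y134.TF

open Polynomial Module Pool.Agent.Y134.Two

section
variable {K : Type} [Field K] [CharZero K] {V : Type} [AddCommGroup V] [Module K V]
  [FiniteDimensional K V]

/-- The value of the characteristic polynomial of a map on an even dimensional space. -/
lemma eval_eq {W : Type} [AddCommGroup W] [Module K W] [FiniteDimensional K W]
    (f : Module.End K W) :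
    f.charpoly.eval 1 * f.charpoly.eval (-1) = LinearMap.det (f - 1) * LinearMap.det (f + 1) := by
  have h1 : f.charpoly.eval 1 = (-1) ^ finrank K W * LinearMap.det (f - 1) := by
    rw [LinearMap.eval_charpoly, map_one, one_sub_eq, LinearMap.det_smul]
  have h2 : f.charpoly.eval (-1) = (-1) ^ finrank K W * LinearMap.det (f + 1) := by
    rw [LinearMap.eval_charpoly, ← LinearMap.det_smul]
    congr 1
    refine LinearMap.ext fun x => ?_
    rw [LinearMap.sub_apply, Module.algebraMap_end_apply, LinearMap.smul_apply,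
      LinearMap.add_apply, Module.End.one_apply, neg_smul, neg_smul, one_smul, one_smul]
    abel
  rw [h1, h2]
  have h3 : ((-1 : K) ^ finrank K W) * (-1) ^ finrank K W = 1 := by
    rw [← mul_pow, neg_one_mul, neg_neg, one_pow]
  linear_combination (LinearMap.det (f - 1) * LinearMap.det (f + 1)) * h3

variable {b : V →ₗ[K] V →ₗ[K] K}

/-- The characteristic polynomial on the complement. -/
lemma charpoly_perp' (hb : ∀ x, (∀ y, b x y = 0) → x = 0) {f : Module.End K V}
    (hf : ∀ x y, b (f x) (f y) = b x y) {v : V} (hv0 : v ≠ 0) {e : K} (he : e ≠ 0)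
    (hv : f v = e • v) (hW : ∀ x ∈ perp b v, f x ∈ perp b v) :
    f.charpoly = (f.restrict hW).charpoly * (X - C e⁻¹) := by
  rw [Pool.Agent.W522.C.charpoly_eq_mul f (perp b v) hW]
  congr 1
  have h1 : finrank K (V ⧸ perp b v) = 1 := by
    have h2 := Submodule.finrank_quotient_add_finrank (perp b v)
    have h3 := finrank_perp hb hv0
    omega
  refine charpoly_line h1 fun x => ?_
  obtain ⟨x, rfl⟩ := Submodule.mkQ_surjective _ x
  change Submodule.Quotient.mk (f x) = e⁻¹ • Submodule.Quotient.mk x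
  rw [← Submodule.Quotient.mk_smul, Submodule.Quotient.eq, mem_perp, map_sub, map_smul,
    smul_eq_mul]
  have h3 := hf v x
  rw [hv, map_smul, LinearMap.smul_apply, smul_eq_mul] at h3
  rw [← h3]
  field_simp
  ring

/-- Restriction to the complement of a stable line. -/
lemma charpoly_restrict (hb : ∀ x, (∀ y, b x y = 0) → x = 0) {f : Module.End K V}
    (hf : ∀ x y, b (f x) (f y) = b x y) {ε : K} {R : K[X]}
    (hA : f.charpoly = (X - C ε) * R) (hR1 : R.eval 1 ≠ 0) (hR2 : R.eval (-1) ≠ 0)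
    {v : V} (hvv : b v v ≠ 0) {e : K} (hv : f v = e • v) (hW : ∀ x ∈ perp b v, f x ∈ perp b v) :
    e * e = 1 ∧ e = ε ∧ (f.restrict hW).charpoly = R := by
  have hv0 : v ≠ 0 := by
    rintro rfl
    exact hvv (by simp)
  have hee : e * e = 1 := by
    have h1 := hf v v
    rw [hv] at h1
    simp only [map_smul, LinearMap.smul_apply, smul_eq_mul, ← mul_assoc] at h1
    exact mul_right_cancel₀ hvv (h1.trans (one_mul _).symm)
  have he0 : e ≠ 0 := left_ne_zero_of_mul (by rw [hee]; exact one_ne_zero)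
  have hei : e⁻¹ = e := by
    rw [inv_eq_iff_eq_inv, eq_inv_of_mul_eq_one_left hee]
    rw [inv_inv, ← eq_inv_of_mul_eq_one_left hee]
  have h1 := charpoly_perp' hb hf hv0 he0 hv hW
  rw [hei] at h1
  have h3 : (X - C ε) * R = (f.restrict hW).charpoly * (X - C e) := by rw [← hA]; exact h1
  have h4 : e = ε := by
    have h5 := congrArg (eval e) h3
    rw [eval_mul, eval_mul, eval_sub, eval_sub, eval_X, eval_C, eval_C, sub_self, mul_zero] at h5
    rcases mul_eq_zero.1 h5 with h6 | h6
    · exact sub_eq_zero.1 h6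
    · rcases mul_self_eq_one_iff.1 hee with h7 | h7
      · rw [h7] at h6
        exact absurd h6 hR1
      · rw [h7] at h6
        exact absurd h6 hR2
  refine ⟨hee, h4, ?_⟩
  rw [← h4, mul_comm] at h3
  exact (mul_right_cancel₀ (X_sub_C_ne_zero e) h3).symm

lemma perp_le {f : Module.End K V}
    (hf : ∀ x y, b (f x) (f y) = b x y) {v : V} (hvv : b v v ≠ 0) {e : K} (hv : f v = e • v) :
    ∀ x ∈ perp b v, f x ∈ perp b v := by
  have he0 : e ≠ 0 := by
    rintro rfl
    have h1 := hf v v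
    rw [hv, zero_smul, map_zero] at h1
    exact hvv h1.symm
  intro y hy
  rw [mem_perp] at hy
  rw [mem_perp]
  have h1 := hf v y
  rw [hv, map_smul, LinearMap.smul_apply, hy, smul_eq_mul] at h1
  exact (mul_eq_zero.1 h1).resolve_left he0

/-- The value of `R` at `1` and `-1` is the determinant of an alternating map. -/
lemma exists_alt (hb : ∀ x, (∀ y, b x y = 0) → x = 0) (hs : ∀ x y, b x y = b y x)
    {f : Module.End K V} (hf : ∀ x y, b (f x) (f y) = b x y) {ε : K} {R : K[X]}
    (hA : f.charpoly = (X - C ε) * R) (hR1 : R.eval 1 ≠ 0) (hR2 : R.eval (-1) ≠ 0)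
    {v : V} (hvv : b v v ≠ 0) {e : K} (hv : f v = e • v) :
    ∃ T : Module.End K (perp b v), (∀ x, rform b (perp b v) (T x) x = 0) ∧
      R.eval 1 * R.eval (-1) = LinearMap.det T := by
  have hW := perp_le hf hvv hv
  obtain ⟨-, -, h3⟩ := charpoly_restrict hb hf hA hR1 hR2 hvv hv hW
  have h4 := eval_eq (f.restrict hW)
  rw [h3] at h4
  have hB : ∀ x, (∀ y, rform b (perp b v) x y = 0) → x = 0 :=
    fun x hx => perp_nondeg hb hs hvv x hx
  have hsW : ∀ x y, rform b (perp b v) x y = rform b (perp b v) y x := fun x y => hs x y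
  have hfW : ∀ x y, rform b (perp b v) (f.restrict hW x) (f.restrict hW y)
    = rform b (perp b v) x y := fun x y => hf x y
  obtain ⟨g, h5, h6, h7⟩ := exists_inv hB hfW
  obtain ⟨halt, hfacts⟩ := skew_facts hB hsW h5 h6 h7
  have h8 : LinearMap.det (f.restrict hW - 1) * LinearMap.det (f.restrict hW + 1) ≠ 0 := by
    rw [← h4]
    exact mul_ne_zero hR1 hR2
  obtain ⟨-, -, h9⟩ := hfacts (left_ne_zero_of_mul h8) (right_ne_zero_of_mul h8)
  exact ⟨_, halt, by rw [h9, h4]⟩

/-- Two isometries which preserve a line. -/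
theorem isSquare_of_line (hb : ∀ x, (∀ y, b x y = 0) → x = 0) (hs : ∀ x y, b x y = b y x)
    {f f' : Module.End K V} (hf : ∀ x y, b (f x) (f y) = b x y)
    (hf' : ∀ x y, b (f' x) (f' y) = b x y) {ε ε' : K} {R R' : K[X]}
    (hA : f.charpoly = (X - C ε) * R) (hA' : f'.charpoly = (X - C ε') * R')
    (hR1 : R.eval 1 ≠ 0) (hR2 : R.eval (-1) ≠ 0) (hR1' : R'.eval 1 ≠ 0) (hR2' : R'.eval (-1) ≠ 0)
    {v : V} (hvv : b v v ≠ 0) {e e' : K} (hv : f v = e • v) (hv' : f' v = e' • v) :
    IsSquare ((R.eval 1 * R.eval (-1)) * (R'.eval 1 * R'.eval (-1))) := by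
  obtain ⟨T, hT, h1⟩ := exists_alt hb hs hf hA hR1 hR2 hvv hv
  obtain ⟨T', hT', h1'⟩ := exists_alt hb hs hf' hA' hR1' hR2' hvv hv'
  rw [h1, h1']
  exact isSquare_two (fun x hx => perp_nondeg hb hs hvv x hx) hT hT'

/-- The eigenvector. -/
theorem exists_vector (hb : ∀ x, (∀ y, b x y = 0) → x = 0) {f : Module.End K V}
    (hf : ∀ x y, b (f x) (f y) = b x y) {ε : K} (hε : ε * ε = 1) {R : K[X]}
    (hA : f.charpoly = (X - C ε) * R) (hR : R.eval ε ≠ 0) :
    ∃ v : V, v ≠ 0 ∧ f v = ε • v ∧ b v v ≠ 0 := by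
  have h1 : Module.End.HasEigenvalue f ε := by
    rw [Module.End.hasEigenvalue_iff_isRoot_charpoly, IsRoot.def, hA, eval_mul, eval_sub, eval_X,
      eval_C, sub_self, zero_mul]
  obtain ⟨v, hv⟩ := h1.exists_hasEigenvector
  refine ⟨v, hv.2, hv.apply_eq_smul, fun hvv => ?_⟩
  have hε0 : ε ≠ 0 := left_ne_zero_of_mul (by rw [hε]; exact one_ne_zero)
  have hei : ε⁻¹ = ε := by
    rw [inv_eq_iff_eq_inv, eq_inv_of_mul_eq_one_left hε]
    rw [inv_inv, ← eq_inv_of_mul_eq_one_left hε]
  have hfv := hv.apply_eq_smul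
  have hst : ∀ x ∈ perp b v, f x ∈ perp b v := by
    intro y hy
    rw [mem_perp] at hy
    rw [mem_perp]
    have h1 := hf v y
    rw [hfv, map_smul, LinearMap.smul_apply, hy, smul_eq_mul] at h1
    exact (mul_eq_zero.1 h1).resolve_left hε0
  have h2 := charpoly_perp' hb hf hv.2 hε0 hfv hst
  have h3 : (X - C ε) ∣ (f.restrict hst).charpoly := by
    rw [dvd_iff_isRoot, ← Module.End.hasEigenvalue_iff_isRoot_charpoly]
    refine Module.End.hasEigenvalue_of_hasEigenvector (x := ⟨v, mem_perp.2 hvv⟩) ⟨?_, ?_⟩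
    · rw [Module.End.mem_eigenspace_iff]
      apply Subtype.ext
      exact hfv
    · intro h
      exact hv.2 (congrArg Subtype.val h)
  obtain ⟨S, hS⟩ := h3
  rw [hei, hS, hA, mul_assoc] at h2
  have h4 := h2
  have h5 := mul_left_cancel₀ (X_sub_C_ne_zero ε) h4
  apply hR
  rw [h5, eval_mul, eval_sub, eval_X, eval_C, sub_self, mul_zero]

end

end Pool.Agent.Y134.TF
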