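import Pool.Agent.Y130.Pub

/-!
# The Tate conjecture from two Frobenius polynomials: definitions
-/

set_option autoImplicit false

universe u

namespace Pool.Agent.Y134.TF

open Polynomial Pool.Agent.TH125.Gal Pool.Agent.Y130

/-- No quotient of two different roots of the polynomial `A` in `E` is a root of unity. -/
def NoRatio {K : Type} [Field K] (E : Type) [Field E] [Algebra K E] (A : K[X]) : Prop :=
  ∀ x y : E, aeval x A = 0 → aeval y A = 0 → ∀ n : ℕ, 0 < n → x ^ n = y ^ n → x = y

/-- The element `a` is a root of the polynomial `P`; if `a δ` and `β γ` differ by a root of unity for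
roots `β`, `γ`, `δ` of `P` then `β = a` or `γ = a` or `a δ` is a root of unity; and no positive power
of a quotient `β / a` for a root `β ≠ a` is in the group generated by the nonzero elements of `E`. -/
structure IsolatedRoot {K₀ K : Type} [Field K₀] [Field K] [Algebra K₀ K] (P : K₀[X]) (E : Set K)
    (a : K) : Prop where
  root : aeval a P = 0
  rel : ∀ β γ δ : K, aeval β P = 0 → aeval γ P = 0 → aeval δ P = 0 → UpTo (a * δ) (β * γ) →
    β = a ∨ γ = a ∨ UpTo (a * δ) 1
  indep : ∀ β : K, aeval β P = 0 → ∀ n : ℕ, 0 < n → ∀ u ∈ mulGrp E, β ^ n = u * a ^ n → β = a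

section
variable {K₀ K A V : Type} [Field K₀] [Field K] [Algebra K₀ K] [Ring A] [Algebra K A]
  [AddCommGroup V] [Module K₀ V] {Γ : Type} [Group Γ]

/-- The form `b` is the restriction of the form `tr (x y)`. -/
def FormCompat (tr : A →ₗ[K] K) (b : V →ₗ[K₀] V →ₗ[K₀] K₀) (j : V →+ A) : Prop :=
  ∀ x y, tr (j x * j y) = algebraMap K₀ K (b x y)

/-- The action on `V` is the action on `A` twisted by `χ ^ (- r)`. -/
def ActCompat (χ : Γ →* Kˣ) (r : ℕ) (act : Γ →* (A ≃ₐ[K] A)) (ρ : Representation K₀ Γ V)
    (j : V →+ A) : Prop :=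
  ∀ g v, act g (j v) = (χ g : K) ^ r • j (ρ g v)

/-- The space `V` over the subfield `K₀` of `K` with the form `b` and the representation `ρ` is a
`K₀`-structure of the subspace `T` of `A` with the form `tr (x y)` and with the action of `Γ`
twisted by `χ ^ (- r)`; `j` is the inclusion. -/
structure IsRational (χ : Γ →* Kˣ) (tr : A →ₗ[K] K) (r : ℕ)
    (T : Submodule K A) (act : Γ →* (A ≃ₐ[K] A)) (b : V →ₗ[K₀] V →ₗ[K₀] K₀)
    (ρ : Representation K₀ Γ V) (j : V →+ A) : Prop where
  smul : ∀ (c : K₀) (v : V), j (c • v) = algebraMap K₀ K c • j v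
  span : Submodule.span K (Set.range j) = T
  rank : Module.finrank K T = Module.finrank K₀ V
  form' : FormCompat tr b j
  equivariant' : ActCompat χ r act ρ j

/-- The algebra `A` is the sum of the subspace `P` and of a subspace of `S` which is orthogonal to
`P`. -/
def OrthSum (tr : A →ₗ[K] K) (S P : Submodule K A) : Prop :=
  ∃ B ≤ S, B ⊔ P = ⊤ ∧ ∀ a ∈ B, ∀ x ∈ P, tr (a * x) = 0

end

/-- The characteristic polynomials of two elements `g₁` and `g₂`: the one of `g₁` is `(X - ε₁) R₁`
with an irreducible polynomial `R₁` of degree at least `2` and `ε₁ = 1` or `ε₁ = -1`, and no quotient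
of two different roots in `E` is a root of unity; the one of `g₂` is `(X - ε₂) R₂` where `1` and `-1`
are not roots of `R₂`; and `R₁(1) R₁(-1) R₂(1) R₂(-1)` is not a square. -/
structure TwoPolynomials {K₀ : Type} (E : Type) [Field K₀] [Field E] [Algebra K₀ E] {V : Type}
    [AddCommGroup V] [Module K₀ V] [FiniteDimensional K₀ V] {Γ : Type} [Group Γ]
    (ρ : Representation K₀ Γ V) (g₁ g₂ : Γ) (ε₁ : K₀) (R₁ : K₀[X]) (ε₂ : K₀) (R₂ : K₀[X]) :
    Prop where
  sign : ε₁ * ε₁ = 1
  charpoly₁ : (ρ g₁).charpoly = (X - C ε₁) * R₁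
  irreducible : Irreducible R₁
  degree : 1 < R₁.natDegree
  ratio : NoRatio E ((X - C ε₁) * R₁)
  charpoly₂ : (ρ g₂).charpoly = (X - C ε₂) * R₂
  eval_one : R₂.eval 1 ≠ 0
  eval_neg : R₂.eval (-1) ≠ 0
  square : ¬ IsSquare ((R₁.eval 1 * R₁.eval (-1)) * (R₂.eval 1 * R₂.eval (-1)))

/-- A representation of `Γ` on a finite dimensional space over `K₀` and a bilinear form. -/
structure FormRep (K₀ : Type) [Field K₀] (Γ : Type) [Group Γ] where
  /-- the space -/
  V : Type
  [addCommGroup : AddCommGroup V]
  [module : Module K₀ V]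
  [finite : FiniteDimensional K₀ V]
  /-- the form -/
  form : V →ₗ[K₀] V →ₗ[K₀] K₀
  /-- the representation -/
  rep : Representation K₀ Γ V

attribute [instance] FormRep.addCommGroup FormRep.module FormRep.finite

/-- There are two elements of `Γ` with characteristic polynomials as in `TwoPolynomials`, and the
polynomial of the first one, `g₁`, has an isolated root with respect to the set `E g₁`. -/
def FormRep.Two {K₀ : Type} [Field K₀] {Γ : Type} [Group Γ] (F : FormRep K₀ Γ) {K : Type} [Field K]
    [Algebra K₀ K] (E : Γ → Set K) : Prop :=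
  ∃ (g₁ g₂ : Γ) (ε₁ : K₀) (R₁ : K₀[X]) (ε₂ : K₀) (R₂ : K₀[X]) (a : K),
    TwoPolynomials K F.rep g₁ g₂ ε₁ R₁ ε₂ R₂ ∧ IsolatedRoot ((X - C ε₁) * R₁) (E g₁) a

section
variable {K A : Type} [Field K] [Ring A] [Algebra K A] {Γ : Type} [Group Γ]

/-- For a field `K₀` of characteristic `0` (a subfield of `K`), the subspace `P` of `A` has a
`K₀`-structure, with its form and with the action of `Γ` twisted by `χ ^ (- r)`, which has
the property `FormRep.Two`. -/
def TwoStr (χ : Γ →* Kˣ) (tr : A →ₗ[K] K) (r : ℕ) (P : Submodule K A) (act : Γ →* (A ≃ₐ[K] A))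
    (E : Γ → Set K) : Prop :=
  ∃ (K₀ : Type) (_ : Field K₀) (_ : CharZero K₀) (_ : Algebra K₀ K) (F : FormRep K₀ Γ)
    (j : F.V →+ A), IsRational χ tr r P act F.form F.rep j ∧ F.Two E

/-- The group `Γ` acts on the cohomology algebra `A` of a variety of dimension `n` (with the degrees
`gr`, the orientation `tr` and the sets `C j` of the classes of cycles of codimension `j`) like a
Galois group; `n` is even; `A` is the sum of a space spanned by classes of cycles and of the
subspace `P` of the cohomology in the degree `n`, and these spaces are orthogonal (for instance `P`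
is the primitive cohomology of a hypersurface or of a cyclic covering of projective space); `P` has
the property `TwoStr`. -/
structure TwoFrobenius (χ : Γ →* Kˣ) (gr : ℕ → Submodule K A) (n : ℕ) (tr : A →ₗ[K] K)
    (C : ℕ → Set A) (act : Γ →* (A ≃ₐ[K] A)) (P : Submodule K A) (E : Γ → Set K) : Prop where
  galois : IsGaloisAct χ gr n tr C act
  even : Even n
  middle : P ≤ gr n
  sum : OrthSum tr (Submodule.span K (⋃ j, C j)) P
  two : TwoStr χ tr (n / 2) P act E

/-- A class of a cycle is zero if it is orthogonal to all classes of cycles; `P` is the orthogonal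
complement of the classes of cycles; and it is irreducible under all subgroups of finite index. -/
structure TransPart (tr : A →ₗ[K] K) (C : ℕ → Set A) (act : Γ →* (A ≃ₐ[K] A))
    (P : Submodule K A) : Prop where
  homEqNum : ∀ i, ∀ c ∈ C i, (∀ j, ∀ c' ∈ C j, tr (c * c') = 0) → c = 0
  transcendental : ∀ x, x ∈ P ↔ ∀ j, ∀ c ∈ C j, tr (x * c) = 0
  irreducible : IrredAct act P

end

open Pool.Agent.H914 Pool.Agent.H914.VarClass.Obj Pool.Agent.H914.WeilCohomology
  Pool.Agent.H281R3.HT

variable {k : Type u} [Field k] {𝒱 : VarClass k} {ops : CycleOps 𝒱}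

/-- A variety with an action of the group `Γ` on its cohomology and with a subspace `P` of the
cohomology. -/
structure PVar (W : WeilCohomology.{u, 0} ops) (Γ : Type) [Group Γ] extends GVar W Γ where
  /-- the subspace -/
  P : Submodule W.K (W.H X)

variable {W : WeilCohomology.{u, 0} ops} {Γ : Type} [Group Γ]

/-- The dimension of `P`. -/
noncomputable def PVar.rank (X : PVar W Γ) : ℕ := Module.finrank W.K X.P

/-- The variety `X` has the property `TwoFrobenius`. -/
def PVar.Two (χ : Γ →* W.Kˣ) (X : PVar W Γ) (E : Γ → Set W.K) : Prop :=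
  TwoFrobenius χ (W.gr X.X) X.X.dim (W.tr X.X) (algClasses W X.X) X.act X.P E

/-- The variety `X` has the property `TransPart`. -/
def PVar.Trans (X : PVar W Γ) : Prop := TransPart (W.tr X.X) (algClasses W X.X) X.act X.P

end Pool.Agent.Y134.TF
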