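import Pool.Agent.Y134.TF.Alg
import Pool.Agent.Y134.Two.Fin
import Pool.Agent.Y134.TF.Defs

/-!
# Powers of a map with irreducible characteristic polynomial
-/

set_option autoImplicit false

namespace Pool.Agent.Y134.TF

open Polynomial Module Pool.Agent.Y134.Two TensorProduct

section
variable {K : Type} [Field K] [CharZero K]

/-- A polynomial with a power of a root of `R` as a root has large degree. -/
lemma degree_le {E : Type} [Field E] [IsAlgClosed E] [Algebra K E] {R : K[X]} (hmon : R.Monic)
    (hirr : Irreducible R) (hrat : NoRatio E R) {m : ℕ} (hm : 0 < m) {z : E} (hz : aeval z R = 0)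
    {q : K[X]} (hq : q ≠ 0) (hqz : aeval (z ^ m) q = 0) : R.natDegree ≤ q.natDegree := by
  classical
  have h1 : R = minpoly K z := minpoly.eq_of_irreducible_of_monic hirr hz hmon
  have h2 : R ∣ expand K m q := by
    rw [h1]
    apply minpoly.dvd
    rw [expand_aeval, hqz]
  have h3 : ∀ y : E, aeval y R = 0 → aeval (y ^ m) q = 0 := by
    intro y hy
    rw [← expand_aeval]
    obtain ⟨S, hS⟩ := h2
    rw [hS, map_mul, hy, zero_mul]
  have hR0 : R.map (algebraMap K E) ≠ 0 := (Polynomial.map_ne_zero hmon.ne_zero)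
  have hq0 : q.map (algebraMap K E) ≠ 0 := (Polynomial.map_ne_zero hq)
  have h4 : (R.map (algebraMap K E)).roots.toFinset.card = R.natDegree := by
    rw [Multiset.toFinset_card_of_nodup, splits_iff_card_roots.1 (IsAlgClosed.splits _),
      natDegree_map]
    exact nodup_roots (hirr.separable.map)
  have h5 : (R.map (algebraMap K E)).roots.toFinset.card
      ≤ (q.map (algebraMap K E)).roots.toFinset.card := by
    refine Finset.card_le_card_of_injOn (fun y => y ^ m) ?_ ?_
    · intro y hy
      rw [Finset.mem_coe, Multiset.mem_toFinset, mem_roots hR0, IsRoot.def, eval_map_algebraMap] at hy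
      rw [Finset.mem_coe, Multiset.mem_toFinset, mem_roots hq0, IsRoot.def, eval_map_algebraMap]
      exact h3 y hy
    · intro y hy y' hy' h
      rw [Finset.mem_coe, Multiset.mem_toFinset, mem_roots hR0, IsRoot.def, eval_map_algebraMap] at hy hy'
      exact hrat y y' hy hy' m hm h
  rw [h4] at h5
  refine h5.trans ((Multiset.toFinset_card_le _).trans ?_)
  exact (card_roots' _).trans natDegree_map_le

variable {W : Type} [AddCommGroup W] [Module K W] [FiniteDimensional K W]

/-- Subspaces which are stable under a power. -/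
theorem eq_top_of_stable {E : Type} [Field E] [IsAlgClosed E] [Algebra K E]
    {f : Module.End K W} (hirr : Irreducible f.charpoly) (hrat : NoRatio E f.charpoly)
    {m : ℕ} (hm : 0 < m) {U : Submodule K W} (hU : ∀ x ∈ U, (f ^ m) x ∈ U) (hne : U ≠ ⊥) :
    U = ⊤ := by
  have hU' : U ≤ U.comap (f ^ m) := hU
  set g : Module.End K U := (f ^ m).restrict hU with hg
  have h1 := Pool.Agent.W522.C.charpoly_eq_mul (f ^ m) U hU'
  have hpos : 0 < finrank K U := by
    have : Nontrivial U := (Submodule.nontrivial_iff_ne_bot).2 hne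
    exact finrank_pos
  have hdeg : (g.charpoly.map (algebraMap K E)).degree ≠ 0 := by
    rw [degree_map, degree_eq_natDegree (LinearMap.charpoly_monic g).ne_zero,
      LinearMap.charpoly_natDegree]
    exact_mod_cast hpos.ne'
  obtain ⟨x, hx⟩ := IsAlgClosed.exists_root _ hdeg
  rw [IsRoot.def, eval_map_algebraMap] at hx
  -- `x` is an eigenvalue of the power
  obtain ⟨Φ, hΦ⟩ : ∃ Φ : Module.End E (E ⊗[K] W), Φ = f.baseChange E := ⟨_, rfl⟩
  have h2 : (Φ ^ m).charpoly = (f ^ m).charpoly.map (algebraMap K E) := by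
    rw [hΦ, ← LinearMap.baseChange_pow, LinearMap.charpoly_baseChange]
  have h3 : Module.End.HasEigenvalue (Φ ^ m) x := by
    rw [Module.End.hasEigenvalue_iff_isRoot_charpoly, h2, IsRoot.def, eval_map_algebraMap, h1,
      map_mul]
    have h4 : aeval x g.charpoly = 0 := hx
    exact mul_eq_zero_of_left h4 _
  obtain ⟨z, hz, hzx⟩ : ∃ z : E, aeval z f.charpoly = 0 ∧ z ^ m = x := by
    rw [Module.End.hasEigenvalue_iff_mem_spectrum, spectrum.map_pow_of_pos Φ hm] at h3
    obtain ⟨z, hz, hzx⟩ := h3
    refine ⟨z, ?_, hzx⟩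
    rw [← Module.End.hasEigenvalue_iff_mem_spectrum,
      Module.End.hasEigenvalue_iff_isRoot_charpoly, hΦ, LinearMap.charpoly_baseChange, IsRoot.def,
      eval_map_algebraMap] at hz
    exact hz
  have h5 := degree_le (LinearMap.charpoly_monic f) hirr hrat hm hz
    (LinearMap.charpoly_monic g).ne_zero (by rw [hzx]; exact hx)
  rw [LinearMap.charpoly_natDegree, LinearMap.charpoly_natDegree] at h5
  exact Submodule.eq_top_of_finrank_eq (le_antisymm (Submodule.finrank_le U) h5)

end

end Pool.Agent.Y134.TF
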