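import Pool.Agent.Y134.TF.Ext

/-!
# Isolated roots
-/

set_option autoImplicit false

namespace Pool.Agent.Y134.TF

open Polynomial Module Pool.Agent.Y134.Two Pool.Agent.TH125.Gal Pool.Agent.Y130 TensorProduct

section
variable {K₀ K A V : Type} [Field K₀] [CharZero K₀] [Field K] [IsAlgClosed K] [Algebra K₀ K]
  [Ring A] [Algebra K A] [AddCommGroup V] [Module K₀ V] [FiniteDimensional K₀ V] {Γ : Type}
  [Group Γ] {χ : Γ →* Kˣ} {tr : A →ₗ[K] K} {r : ℕ} {T : Submodule K A} {act : Γ →* (A ≃ₐ[K] A)}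
  {b : V →ₗ[K₀] V →ₗ[K₀] K₀} {ρ : Representation K₀ Γ V} {j : V →+ A}

lemma j_sum (h : IsRational χ tr r T act b ρ j) (v : V) :
    j v = ∑ i, algebraMap K₀ K ((finBasis K₀ V).repr v i) • j (finBasis K₀ V i) := by
  conv_lhs => rw [← (finBasis K₀ V).sum_repr v]
  rw [map_sum]
  exact Finset.sum_congr rfl fun i _ => h.smul _ _

lemma nrm_mem (h : IsRational χ tr r T act b ρ j) (g : Γ) : ∀ x ∈ T, nrm χ r act g x ∈ T := by
  intro x hx
  rw [← h.span] at hx ⊢
  induction hx using Submodule.span_induction with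
  | mem x hx =>
    obtain ⟨x, rfl⟩ := hx
    rw [nrm_j h]
    exact Submodule.subset_span ⟨_, rfl⟩
  | zero => rw [map_zero]; exact Submodule.zero_mem _
  | add x y _ _ hx hy => rw [map_add]; exact Submodule.add_mem _ hx hy
  | smul c x _ hx => rw [map_smul]; exact Submodule.smul_mem _ _ hx

variable [FiniteDimensional K T]

theorem charpoly_nrm (h : IsRational χ tr r T act b ρ j) (g : Γ) :
    ((nrm χ r act g).restrict (nrm_mem h g)).charpoly
      = ((ρ g).charpoly).map (algebraMap K₀ K) := by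
  obtain ⟨B, hB⟩ := h.exists_basis
  let e : K ⊗[K₀] V ≃ₗ[K] T := ((finBasis K₀ V).baseChange K).equiv B (Equiv.refl _)
  have he0 : ∀ i, e (1 ⊗ₜ finBasis K₀ V i) = B i := by
    intro i
    have h1 := ((finBasis K₀ V).baseChange K).equiv_apply i B (Equiv.refl _)
    rw [Basis.baseChange_apply] at h1
    exact h1
  have he : ∀ v, (e (1 ⊗ₜ v) : A) = j v := by
    intro v
    rw [j_sum h v]
    have h1 : (1 : K) ⊗ₜ[K₀] v
        = ∑ i, algebraMap K₀ K ((finBasis K₀ V).repr v i) • ((1 : K) ⊗ₜ[K₀] finBasis K₀ V i) := by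
      conv_lhs => rw [← (finBasis K₀ V).sum_repr v]
      rw [tmul_sum]
      refine Finset.sum_congr rfl fun i _ => ?_
      rw [tmul_smul, algebraMap_smul]
    rw [h1, map_sum, Submodule.coe_sum]
    refine Finset.sum_congr rfl fun i _ => ?_
    rw [map_smul, he0, Submodule.coe_smul, hB]
  have h1 : (nrm χ r act g).restrict (nrm_mem h g) = e.conj ((ρ g).baseChange K) := by
    refine B.ext fun i => ?_
    rw [LinearEquiv.conj_apply_apply, ← he0, LinearEquiv.symm_apply_apply,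
      LinearMap.baseChange_tmul]
    apply Subtype.ext
    rw [he]
    change nrm χ r act g (e (1 ⊗ₜ finBasis K₀ V i)) = _
    rw [he, nrm_j h]
  rw [h1, LinearEquiv.charpoly_conj, LinearMap.charpoly_baseChange]

/-- The eigenvalues on `T`. -/
lemma aeval_eig (h : IsRational χ tr r T act b ρ j) {g : Γ} {β : K} (hβ : β ∈ eigOn T act g) :
    aeval (((χ g : K) ^ r)⁻¹ * β) (ρ g).charpoly = 0 := by
  obtain ⟨x, hx, hx0, hxβ⟩ := hβ
  rw [← eval_map_algebraMap, ← charpoly_nrm h g]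
  have h1 : Module.End.HasEigenvalue ((nrm χ r act g).restrict (nrm_mem h g))
      (((χ g : K) ^ r)⁻¹ * β) := by
    refine Module.End.hasEigenvalue_of_hasEigenvector (x := ⟨x, hx⟩) ⟨?_, ?_⟩
    · rw [Module.End.mem_eigenspace_iff]
      apply Subtype.ext
      change ((χ g : K) ^ r)⁻¹ • act g x = (((χ g : K) ^ r)⁻¹ * β) • x
      rw [hxβ, smul_smul]
    · intro h2
      exact hx0 (congrArg Subtype.val h2)
  exact (Module.End.hasEigenvalue_iff_isRoot_charpoly _ _).1 h1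

lemma pow_nrm (g : Γ) (β : K) (n : ℕ) (x : A) :
    ((nrm χ r act g - (((χ g : K) ^ r)⁻¹ * β) • (1 : Module.End K A)) ^ n) x
      = ((((χ g : K) ^ r)⁻¹) ^ n) • (((act g).toLinearMap - β • (1 : Module.End K A)) ^ n) x := by
  have h1 : nrm χ r act g - (((χ g : K) ^ r)⁻¹ * β) • (1 : Module.End K A)
      = (((χ g : K) ^ r)⁻¹) • ((act g).toLinearMap - β • (1 : Module.End K A)) := by
    rw [smul_sub, smul_smul]
    rfl
  rw [h1, _root_.smul_pow, LinearMap.smul_apply]

lemma pow_restrict {T : Submodule K A} {f : Module.End K A} (hf : ∀ x ∈ T, f x ∈ T) (μ : K)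
    (n : ℕ) (x : T) :
    ((((f.restrict hf) - μ • (1 : Module.End K T)) ^ n) x : A)
      = ((f - μ • (1 : Module.End K A)) ^ n) x := by
  induction n generalizing x with
  | zero => rfl
  | succ n ih =>
    rw [pow_succ, Module.End.mul_apply, ih, pow_succ, Module.End.mul_apply]
    rfl

theorem IsRational.isolated (h : IsRational χ tr r T act b ρ j)
    {g₁ g₂ : Γ} {ε₁ : K₀} {R₁ : K₀[X]} {ε₂ : K₀} {R₂ : K₀[X]}
    (h2 : TwoPolynomials K ρ g₁ g₂ ε₁ R₁ ε₂ R₂) {E : Set K} {a : K}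
    (ha : IsolatedRoot ((X - C ε₁) * R₁) E a) :
    ∃ v ∈ T, IsolatedVec T act g₁ ((χ g₁ : K) ^ (2 * r)) E ((χ g₁ : K) ^ r * a) v := by
  classical
  have hχ : (χ g₁ : K) ^ r ≠ 0 := pow_ne_zero _ (Units.ne_zero _)
  set Ψ : Module.End K T := (nrm χ r act g₁).restrict (nrm_mem h g₁) with hΨ
  have hcp : Ψ.charpoly = ((X - C ε₁) * R₁).map (algebraMap K₀ K) := by
    rw [hΨ, charpoly_nrm h g₁, h2.charpoly₁]
  have heig : Module.End.HasEigenvalue Ψ a := by
    rw [Module.End.hasEigenvalue_iff_isRoot_charpoly, hcp, IsRoot.def, eval_map_algebraMap]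
    exact ha.root
  obtain ⟨v, hv⟩ := heig.exists_hasEigenvector
  have hvA : nrm χ r act g₁ (v : A) = a • (v : A) := congrArg Subtype.val hv.apply_eq_smul
  have hactv : act g₁ (v : A) = ((χ g₁ : K) ^ r * a) • (v : A) := by
    have h3 : ((χ g₁ : K) ^ r)⁻¹ • act g₁ (v : A) = a • (v : A) := hvA
    rw [mul_smul, ← h3, smul_smul, mul_inv_cancel₀ hχ, one_smul]
  -- the multiplicity
  have hsep : (((X - C ε₁) * R₁).map (algebraMap K₀ K)).roots.Nodup := by
    apply nodup_roots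
    apply Separable.map
    refine (separable_X_sub_C).mul h2.irreducible.separable ?_
    exact ((irreducible_X_sub_C ε₁).coprime_iff_not_dvd).2
      (fun hd => not_root h2.irreducible h2.degree ε₁ (dvd_iff_isRoot.1 hd))
  have hmult : finrank K (Ψ.maxGenEigenspace a) ≤ 1 := by
    rw [LinearMap.finrank_maxGenEigenspace_eq, hcp, ← count_roots]
    exact Multiset.nodup_iff_count_le_one.1 hsep a
  have hratio : ∀ z : K, aeval z ((X - C ε₁) * R₁) = 0 → ∀ n : ℕ, 0 < n → z ^ n = a ^ n → z = a :=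
    fun z hz n hn hza => h2.ratio z a hz ha.root n hn hza
  have hE : ∀ β ∈ eigOn T act g₁, aeval (((χ g₁ : K) ^ r)⁻¹ * β) ((X - C ε₁) * R₁) = 0 := by
    intro β hβ
    rw [← h2.charpoly₁]
    exact aeval_eig h hβ
  have hun : ∀ β : K, ((χ g₁ : K) ^ r)⁻¹ * β = a → β = (χ g₁ : K) ^ r * a := by
    intro β hβ
    rw [← hβ, mul_inv_cancel_left₀ hχ]
  refine ⟨v, v.2, ?_, hactv, ?_, ?_, ?_⟩
  · intro h3
    exact hv.2 (Subtype.ext h3)
  · -- simple
    intro β hβ x hx hgen
    by_cases hx0 : x = 0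
    · exact ⟨0, by rw [hx0, zero_smul]⟩
    have hgenβ := hgen
    rw [Module.End.mem_maxGenEigenspace] at hgenβ
    -- `β` is an eigenvalue
    have hβe : β ∈ eigOn T act g₁ := by
      have hmin := Nat.find_spec hgenβ
      have hk0 : Nat.find hgenβ ≠ 0 := by
        intro h0
        rw [h0, pow_zero, Module.End.one_apply] at hmin
        exact hx0 hmin
      obtain ⟨k, hk⟩ := Nat.exists_eq_succ_of_ne_zero hk0
      refine ⟨(((act g₁).toLinearMap - β • (1 : Module.End K A)) ^ k) x, ?_, ?_, ?_⟩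
      · have h3 := pow_restrict (nrm_mem h g₁) (((χ g₁ : K) ^ r)⁻¹ * β) k ⟨x, hx⟩
        rw [pow_nrm] at h3
        have h4 : ((((χ g₁ : K) ^ r)⁻¹) ^ k) •
            (((act g₁).toLinearMap - β • (1 : Module.End K A)) ^ k) x ∈ T := by
          rw [← h3]
          exact Submodule.coe_mem _
        have h5 := T.smul_mem (((((χ g₁ : K) ^ r)⁻¹) ^ k)⁻¹) h4
        rwa [smul_smul, inv_mul_cancel₀ (pow_ne_zero _ (inv_ne_zero hχ)), one_smul] at h5
      · intro h0
        have := Nat.find_min' hgenβ h0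
        omega
      · rw [hk, pow_succ', Module.End.mul_apply, LinearMap.sub_apply, LinearMap.smul_apply,
          Module.End.one_apply, sub_eq_zero] at hmin
        exact hmin
    have hβa : β = (χ g₁ : K) ^ r * a := by
      obtain ⟨n, hn, hnn⟩ := hβ
      apply hun
      refine hratio _ (hE β hβe) n hn ?_
      rw [mul_pow, hnn, mul_pow, ← mul_assoc, ← mul_pow, inv_mul_cancel₀ hχ, one_pow, one_mul]
    -- the vector is in the generalized eigenspace of the restriction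
    have hxΨ : (⟨x, hx⟩ : T) ∈ Ψ.maxGenEigenspace a := by
      obtain ⟨n, hn⟩ := hgenβ
      rw [Module.End.mem_maxGenEigenspace]
      refine ⟨n, Subtype.ext ?_⟩
      rw [hΨ, pow_restrict]
      have h3 : a = ((χ g₁ : K) ^ r)⁻¹ * β := by rw [hβa, inv_mul_cancel_left₀ hχ]
      rw [h3, pow_nrm, hn, smul_zero]
      rfl
    have hvΨ : v ∈ Ψ.maxGenEigenspace a := by
      rw [Module.End.mem_maxGenEigenspace]
      refine ⟨1, ?_⟩
      rw [pow_one, LinearMap.sub_apply, LinearMap.smul_apply, Module.End.one_apply, sub_eq_zero]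
      exact hv.apply_eq_smul
    have hle : Submodule.span K {v} ≤ Ψ.maxGenEigenspace a := by
      rw [Submodule.span_singleton_le_iff_mem]
      exact hvΨ
    have heq : Submodule.span K {v} = Ψ.maxGenEigenspace a := by
      refine Submodule.eq_of_le_of_finrank_le hle ?_
      rw [finrank_span_singleton hv.2]
      exact hmult
    rw [← heq] at hxΨ
    obtain ⟨c, hc⟩ := Submodule.mem_span_singleton.1 hxΨ
    exact ⟨c, (congrArg Subtype.val hc).symm⟩
  · -- rel
    intro β hβ γ hγ δ hδ hr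
    obtain ⟨n, hn, hnn⟩ := hr
    have h3 : UpTo (a * (((χ g₁ : K) ^ r)⁻¹ * δ))
        ((((χ g₁ : K) ^ r)⁻¹ * β) * (((χ g₁ : K) ^ r)⁻¹ * γ)) := by
      refine ⟨n, hn, ?_⟩
      have h4 : a * (((χ g₁ : K) ^ r)⁻¹ * δ)
          = (((χ g₁ : K) ^ r)⁻¹ * ((χ g₁ : K) ^ r)⁻¹) * ((χ g₁ : K) ^ r * a * δ) := by
        field_simp
      have h5 : (((χ g₁ : K) ^ r)⁻¹ * β) * (((χ g₁ : K) ^ r)⁻¹ * γ)
          = (((χ g₁ : K) ^ r)⁻¹ * ((χ g₁ : K) ^ r)⁻¹) * (β * γ) := by ring
      rw [h4, h5, mul_pow, hnn, ← mul_pow]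
    rcases ha.rel _ _ _ (hE β hβ) (hE γ hγ) (hE δ hδ) h3 with h4 | h4 | h4
    · left
      rw [hun β h4]
      exact ⟨1, one_pos, rfl⟩
    · right; left
      rw [hun γ h4]
      exact ⟨1, one_pos, rfl⟩
    · right; right
      obtain ⟨n, hn, hnn⟩ := h4
      refine ⟨n, hn, ?_⟩
      have h5 : (χ g₁ : K) ^ r * a * δ
          = (χ g₁ : K) ^ (2 * r) * (a * (((χ g₁ : K) ^ r)⁻¹ * δ)) := by
        rw [two_mul, pow_add]
        field_simp
      rw [h5, mul_pow, hnn, one_pow, mul_one]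
  · -- indep
    intro β hβ n hn u hu hun'
    have h3 : (((χ g₁ : K) ^ r)⁻¹ * β) ^ n = u * a ^ n := by
      rw [mul_pow, hun', mul_pow]
      have h4 : (((χ g₁ : K) ^ r)⁻¹) ^ n * ((χ g₁ : K) ^ r) ^ n = 1 := by
        rw [← mul_pow, inv_mul_cancel₀ hχ, one_pow]
      linear_combination (u * a ^ n) * h4
    rw [hun β (ha.indep _ (hE β hβ) n hn u hu h3)]
    exact ⟨1, one_pos, rfl⟩

end

end Pool.Agent.Y134.TF
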