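import Pool.Agent.Y134.TF.Span
import Pool.Agent.Y130.Pub

/-!
# Rational structures and irreducibility over the algebraically closed field
-/

set_option autoImplicit false

namespace Pool.Agent.Y134.TF

open Polynomial Module Pool.Agent.Y134.Two Pool.Agent.TH125.Gal Pool.Agent.Y130

section
variable {K₀ K A V : Type} [Field K₀] [Field K] [Algebra K₀ K] [Ring A] [Algebra K A]
  [AddCommGroup V] [Module K₀ V] {Γ : Type} [Group Γ]

theorem IsRational.form {χ : Γ →* Kˣ} {tr : A →ₗ[K] K} {r : ℕ}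
    {T : Submodule K A} {act : Γ →* (A ≃ₐ[K] A)} {b : V →ₗ[K₀] V →ₗ[K₀] K₀}
    {ρ : Representation K₀ Γ V} {j : V →+ A} (h : IsRational χ tr r T act b ρ j) (x y : V) :
    tr (j x * j y) = algebraMap K₀ K (b x y) := h.form' x y

theorem IsRational.equivariant {χ : Γ →* Kˣ} {tr : A →ₗ[K] K} {r : ℕ}
    {T : Submodule K A} {act : Γ →* (A ≃ₐ[K] A)} {b : V →ₗ[K₀] V →ₗ[K₀] K₀}
    {ρ : Representation K₀ Γ V} {j : V →+ A} (h : IsRational χ tr r T act b ρ j) (g : Γ) (v : V) :
    act g (j v) = (χ g : K) ^ r • j (ρ g v) := h.equivariant' g v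

end

section
variable {K₀ K A V : Type} [Field K₀] [CharZero K₀] [Field K] [Algebra K₀ K] [Ring A]
  [Algebra K A] [AddCommGroup V] [Module K₀ V] [FiniteDimensional K₀ V] {Γ : Type} [Group Γ]
  {χ : Γ →* Kˣ} {tr : A →ₗ[K] K} {r : ℕ} {T : Submodule K A} {act : Γ →* (A ≃ₐ[K] A)}
  {b : V →ₗ[K₀] V →ₗ[K₀] K₀} {ρ : Representation K₀ Γ V} {j : V →+ A}
  (h : IsRational χ tr r T act b ρ j)

include h in
lemma IsRational.mem (v : V) : j v ∈ T := by
  rw [← h.span]
  exact Submodule.subset_span ⟨v, rfl⟩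

include h in
/-- A basis of `T`. -/
lemma IsRational.exists_basis : ∃ B : Basis (Fin (finrank K₀ V)) K T,
    ∀ i, (B i : A) = j (finBasis K₀ V i) := by
  let u : Fin (finrank K₀ V) → T := fun i => ⟨j (finBasis K₀ V i), h.mem _⟩
  have h1 : ⊤ ≤ Submodule.span K (Set.range u) := by
    intro x _
    have h2 : (T : Submodule K A) ≤ (Submodule.span K (Set.range u)).map T.subtype := by
      refine h.span.ge.trans (Submodule.span_le.2 ?_)
      rintro _ ⟨v, rfl⟩
      have h3 : j v = ∑ i, algebraMap K₀ K ((finBasis K₀ V).repr v i) • j (finBasis K₀ V i) := by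
        conv_lhs => rw [← (finBasis K₀ V).sum_repr v]
        rw [map_sum]
        exact Finset.sum_congr rfl fun i _ => h.smul _ _
      rw [SetLike.mem_coe, h3]
      refine Submodule.sum_mem _ fun i _ => Submodule.smul_mem _ _ ?_
      exact ⟨u i, Submodule.subset_span ⟨i, rfl⟩, rfl⟩
    obtain ⟨y, hy, hyx⟩ := h2 x.2
    have h4 : y = x := Subtype.ext hyx
    rwa [← h4]
  refine ⟨basisOfTopLeSpanOfCardEqFinrank u h1 (by rw [Fintype.card_fin, h.rank]), fun i => ?_⟩
  rw [coe_basisOfTopLeSpanOfCardEqFinrank]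

include h in
lemma IsRational.injective {v : V} (hv : j v = 0) : v = 0 := by
  obtain ⟨B, hB⟩ := h.exists_basis
  have h3 : ∑ i, algebraMap K₀ K ((finBasis K₀ V).repr v i) • B i = 0 := by
    apply Subtype.ext
    rw [Submodule.coe_sum]
    have h3 : j v = ∑ i, algebraMap K₀ K ((finBasis K₀ V).repr v i) • j (finBasis K₀ V i) := by
      conv_lhs => rw [← (finBasis K₀ V).sum_repr v]
      rw [map_sum]
      exact Finset.sum_congr rfl fun i _ => h.smul _ _
    rw [hv] at h3
    rw [ZeroMemClass.coe_zero, h3]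
    refine Finset.sum_congr rfl fun i _ => ?_
    rw [Submodule.coe_smul, hB]
  have h4 := Fintype.linearIndependent_iff.1 B.linearIndependent _ h3
  rw [← (finBasis K₀ V).sum_repr v]
  refine Finset.sum_eq_zero fun i _ => ?_
  have h5 := h4 i
  rw [map_eq_zero] at h5
  rw [h5, zero_smul]

/-- The hypotheses about the form on `T`. -/
structure FormOn (χ : Γ →* Kˣ) (tr : A →ₗ[K] K) (r : ℕ) (T : Submodule K A)
    (act : Γ →* (A ≃ₐ[K] A)) : Prop where
  symm : ∀ x ∈ T, ∀ y ∈ T, tr (x * y) = tr (y * x)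
  nondeg : ∀ x ∈ T, (∀ y ∈ T, tr (x * y) = 0) → x = 0
  act : ∀ g a, tr (act g a) = (χ g : K) ^ (2 * r) * tr a

include h in
theorem IsRational.form_zero (hF : FormOn χ tr r T act) {x : V} (hx : ∀ y, b x y = 0) :
    x = 0 := by
  apply h.injective
  apply hF.nondeg _ (h.mem x)
  intro y hy
  rw [← h.span] at hy
  induction hy using Submodule.span_induction with
  | mem y hy =>
    obtain ⟨v, rfl⟩ := hy
    rw [h.form, hx, map_zero]
  | zero => rw [mul_zero, map_zero]
  | add y z _ _ h1 h2 => rw [mul_add, map_add, h1, h2, add_zero]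
  | smul c y _ h1 => rw [mul_smul_comm, map_smul, h1, smul_zero]

include h in
theorem IsRational.form_symm (hF : FormOn χ tr r T act) (x y : V) : b x y = b y x := by
  apply (algebraMap K₀ K).injective
  rw [← h.form, ← h.form]
  exact hF.symm _ (h.mem x) _ (h.mem y)

include h in
theorem IsRational.form_inv (hF : FormOn χ tr r T act) (g : Γ) (x y : V) :
    b (ρ g x) (ρ g y) = b x y := by
  apply (algebraMap K₀ K).injective
  rw [← h.form, ← h.form]
  have h1 := hF.act g (j x * j y)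
  rw [map_mul, h.equivariant, h.equivariant, smul_mul_smul_comm, map_smul, smul_eq_mul,
    ← pow_add, ← two_mul] at h1
  exact mul_left_cancel₀ (pow_ne_zero _ (Units.ne_zero _)) h1

include h in
theorem IsRational.twoElements (hF : FormOn χ tr r T act) {g₁ g₂ : Γ} {ε₁ : K₀} {R₁ : K₀[X]}
    {ε₂ : K₀} {R₂ : K₀[X]} (h2 : TwoPolynomials K ρ g₁ g₂ ε₁ R₁ ε₂ R₂) :
    TwoElements K ρ b g₁ g₂ ε₁ R₁ ε₂ R₂ where
  nondeg := fun _ hx => h.form_zero hF hx
  symm := h.form_symm hF
  inv := h.form_inv hF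
  sign := h2.sign
  charpoly₁ := h2.charpoly₁
  irreducible := h2.irreducible
  degree := h2.degree
  ratio := h2.ratio
  charpoly₂ := h2.charpoly₂
  eval_one := h2.eval_one
  eval_neg := h2.eval_neg
  square := h2.square

end

end Pool.Agent.Y134.TF
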