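import Pool.Agent.Y134.TF.Irr

/-!
# The orbit of the eigenvector spans
-/

set_option autoImplicit false

namespace Pool.Agent.Y134.TF

open Polynomial Module Pool.Agent.Y134.Two

section
variable {K : Type} [Field K] [CharZero K] {V : Type} [AddCommGroup V] [Module K V]
  {G : Type} [Group G]

/-- The stabilizer of a vector whose multiples by `1` and `- 1` form a stable set. -/
lemma exists_stabilizer (ρ : Representation K G V) {H : Subgroup G} (hH : H.FiniteIndex) {v : V}
    (hv : v ≠ 0) (h : ∀ g ∈ H, ρ g v = v ∨ ρ g v = -v) :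
    ∃ H' : Subgroup G, H'.FiniteIndex ∧ ∀ g ∈ H', ρ g v = v := by
  classical
  have hvv : v ≠ -v := by
    intro h1
    have h2 : (2 : K) • v = 0 := by
      rw [two_smul]
      nth_rewrite 1 [h1]
      exact neg_add_cancel v
    exact hv ((smul_eq_zero.1 h2).resolve_left two_ne_zero)
  let c : H →* ℤˣ :=
    { toFun := fun g => if ρ g v = v then 1 else -1
      map_one' := by rw [if_pos]; rw [OneMemClass.coe_one, map_one, Module.End.one_apply]
      map_mul' := by
        intro g g'
        have h1 : ρ ((g * g' : H) : G) v = ρ g (ρ g' v) := by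
          rw [Subgroup.coe_mul, map_mul, Module.End.mul_apply]
        rw [h1]
        rcases h g g.2 with h2 | h2 <;> rcases h g' g'.2 with h3 | h3
        · rw [h3, h2, if_pos rfl, mul_one]
        · rw [h3, map_neg, h2, if_pos rfl, if_neg hvv.symm, one_mul]
        · rw [h3, h2, if_neg hvv.symm, if_pos rfl, mul_one]
        · rw [h3, map_neg, h2, neg_neg, if_pos rfl, if_neg hvv.symm]
          decide }
  have hker : c.ker.index ≠ 0 := by
    rw [Subgroup.index_ker]
    exact Nat.card_pos.ne'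
  have hidx : (c.ker.map H.subtype).index ≠ 0 := by
    rw [Subgroup.index_map_subtype]
    exact mul_ne_zero hker hH.index_ne_zero
  refine ⟨c.ker.map H.subtype, ⟨hidx⟩, ?_⟩
  rintro _ ⟨g, hg, rfl⟩
  have h1 : (if ρ g v = v then (1 : ℤˣ) else -1) = 1 := hg
  by_contra h2
  have h3 : ¬ ρ (g : G) v = v := h2
  rw [if_neg h3] at h1
  exact absurd h1 (by decide)

variable [FiniteDimensional K V]

/-- The data of two elements. -/
structure TwoElements (E : Type) [Field E] [Algebra K E] (ρ : Representation K G V)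
    (b : V →ₗ[K] V →ₗ[K] K) (g₁ g₂ : G) (ε₁ : K) (R₁ : K[X]) (ε₂ : K) (R₂ : K[X]) : Prop where
  nondeg : ∀ x, (∀ y, b x y = 0) → x = 0
  symm : ∀ x y, b x y = b y x
  inv : ∀ g x y, b (ρ g x) (ρ g y) = b x y
  sign : ε₁ * ε₁ = 1
  charpoly₁ : (ρ g₁).charpoly = (X - C ε₁) * R₁
  irreducible : Irreducible R₁
  degree : 1 < R₁.natDegree
  ratio : NoRatio E ((X - C ε₁) * R₁)
  charpoly₂ : (ρ g₂).charpoly = (X - C ε₂) * R₂
  eval_one : R₂.eval 1 ≠ 0
  eval_neg : R₂.eval (-1) ≠ 0
  square : ¬ IsSquare ((R₁.eval 1 * R₁.eval (-1)) * (R₂.eval 1 * R₂.eval (-1)))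

lemma not_root {R : K[X]} (hirr : Irreducible R) (hdeg : 1 < R.natDegree) (t : K) :
    R.eval t ≠ 0 := by
  intro h
  exact (hirr.not_isRoot_of_natDegree_ne_one hdeg.ne') h

theorem TwoElements.span_top {E : Type} [Field E] [IsAlgClosed E] [Algebra K E]
    {ρ : Representation K G V} {b : V →ₗ[K] V →ₗ[K] K} {g₁ g₂ : G} {ε₁ : K} {R₁ : K[X]} {ε₂ : K}
    {R₂ : K[X]} (h : TwoElements E ρ b g₁ g₂ ε₁ R₁ ε₂ R₂) {v : V} (hvv : b v v ≠ 0)
    (hv : ρ g₁ v = ε₁ • v) {H : Subgroup G} (hH : H.FiniteIndex) :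
    Submodule.span K {x | ∃ g ∈ H, x = ρ g v} = ⊤ := by
  classical
  have hv0 : v ≠ 0 := by
    rintro rfl
    exact hvv (by simp)
  have hR1 := not_root h.irreducible h.degree 1
  have hR2 := not_root h.irreducible h.degree (-1)
  have hW := perp_le (h.inv g₁) hvv hv
  obtain ⟨-, -, hcp⟩ := charpoly_restrict h.nondeg (h.inv g₁) h.charpoly₁ hR1 hR2 hvv hv hW
  set W := perp b v with hWdef
  set f : Module.End K W := (ρ g₁).restrict hW with hf
  have hirr : Irreducible f.charpoly := by rw [hcp]; exact h.irreducible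
  have hrat : NoRatio E f.charpoly := by
    rw [hcp]
    intro x y hx hy n hn hxy
    exact h.ratio x y (by rw [map_mul, hx, mul_zero]) (by rw [map_mul, hy, mul_zero]) n hn hxy
  have hfpow : ∀ (n : ℕ) (x : W), ((f ^ n) x : V) = (ρ g₁ ^ n) x := by
    intro n x
    induction n with
    | zero => rfl
    | succ n ih =>
      rw [pow_succ', Module.End.mul_apply, pow_succ', Module.End.mul_apply, ← ih]
      rfl
  -- the decomposition
  have hdec : ∀ x : V, x - (b v x / b v v) • v ∈ W := by
    intro x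
    rw [hWdef, mem_perp, map_sub, map_smul, smul_eq_mul, div_mul_cancel₀ _ hvv, sub_self]
  -- stable subspaces which contain `v`
  have key : ∀ (N : Submodule K V) (m : ℕ), 0 < m → v ∈ N → (∀ x ∈ N, (ρ g₁ ^ m) x ∈ N) →
      N ≠ ⊤ → ∀ x ∈ N, ∃ c : K, x = c • v := by
    intro N m hm hvN hN hne
    have hbot : N.comap W.subtype = ⊥ := by
      by_contra h1
      have h2 := eq_top_of_stable (E := E) hirr hrat hm (U := N.comap W.subtype) (by
        intro x hx
        rw [Submodule.mem_comap] at hx ⊢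
        change ((f ^ m) x : V) ∈ N
        rw [hfpow]
        exact hN _ hx) h1
      apply hne
      rw [eq_top_iff]
      intro x _
      have h3 : (⟨_, hdec x⟩ : W) ∈ N.comap W.subtype := by rw [h2]; exact Submodule.mem_top
      have h4 : x - (b v x / b v v) • v ∈ N := h3
      have h5 := N.add_mem h4 (N.smul_mem (b v x / b v v) hvN)
      rwa [sub_add_cancel] at h5
    intro x hx
    refine ⟨b v x / b v v, ?_⟩
    have h3 : (⟨_, hdec x⟩ : W) ∈ N.comap W.subtype :=
      N.sub_mem hx (N.smul_mem _ hvN)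
    rw [hbot, Submodule.mem_bot] at h3
    exact sub_eq_zero.1 (congrArg Subtype.val h3)
  by_contra hne
  set N := Submodule.span K {x | ∃ g ∈ H, x = ρ g v} with hNdef
  have hstab : ∀ g ∈ H, ∀ x ∈ N, ρ g x ∈ N := by
    intro g hg x hx
    have h1 : N ≤ N.comap (ρ g) := by
      rw [hNdef, Submodule.span_le]
      rintro _ ⟨g', hg', rfl⟩
      rw [SetLike.mem_coe, Submodule.mem_comap, ← Module.End.mul_apply, ← map_mul]
      exact Submodule.subset_span ⟨g * g', H.mul_mem hg hg', rfl⟩
    exact h1 hx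
  have hvN : v ∈ N := Submodule.subset_span ⟨1, H.one_mem, by rw [map_one, Module.End.one_apply]⟩
  obtain ⟨m, hm, -, hmH⟩ := H.exists_pow_mem_of_index_ne_zero hH.index_ne_zero g₁
  have h1 := key N m hm hvN (by
    intro x hx
    rw [← map_pow]
    exact hstab _ hmH x hx) hne
  -- the group acts by signs on the line
  have h2 : ∀ g ∈ H, ρ g v = v ∨ ρ g v = -v := by
    intro g hg
    obtain ⟨c, hc⟩ := h1 _ (hstab g hg v hvN)
    have h3 := h.inv g v v
    rw [hc] at h3
    simp only [map_smul, LinearMap.smul_apply, smul_eq_mul, ← mul_assoc] at h3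
    rcases mul_self_eq_one_iff.1 (mul_right_cancel₀ hvv (h3.trans (one_mul _).symm)) with h4 | h4
    · left
      rw [hc, h4, one_smul]
    · right
      rw [hc, h4, neg_one_smul]
  obtain ⟨H₂, hH₂, hfix⟩ := exists_stabilizer ρ hH hv0 h2
  have hfin : H₂.normalCore.FiniteIndex := inferInstance
  obtain ⟨m', hm', -, hmH'⟩ := H₂.normalCore.exists_pow_mem_of_index_ne_zero hfin.index_ne_zero g₁
  set N' := fixed ρ H₂.normalCore with hN'
  have hvN' : v ∈ N' := fun g hg => hfix g (H₂.normalCore_le hg)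
  have hst' : ∀ g, ∀ x ∈ N', ρ g x ∈ N' := fun g x hx => fixed_stable H₂.normalCore_normal g hx
  have hne' : N' ≠ ⊤ := by
    intro h3
    have h4 : ρ g₁ ^ m' = 1 := by
      refine LinearMap.ext fun x => ?_
      have h5 : x ∈ N' := by rw [h3]; exact Submodule.mem_top
      rw [← map_pow]
      exact h5 _ hmH'
    have h5 : (ρ g₁) ^ m' = (1 : K) • (1 : Module.End K V) := by rw [h4, one_smul]
    obtain ⟨z, hz⟩ := IsAlgClosed.exists_root (R₁.map (algebraMap K E)) (by
      rw [degree_map, degree_eq_natDegree h.irreducible.ne_zero]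
      exact_mod_cast (lt_trans one_pos h.degree).ne')
    rw [IsRoot.def, eval_map_algebraMap] at hz
    have h6 : aeval z ((X - C ε₁) * R₁) = 0 := by rw [map_mul, hz, mul_zero]
    have h7 : z ^ m' = 1 := by
      have h8 := root_pow (E := E) h5 (x := z) (by
        rw [h.charpoly₁, mem_roots, IsRoot.def, eval_map_algebraMap]
        · exact h6
        · rw [← h.charpoly₁]
          exact ((LinearMap.charpoly_monic _).map _).ne_zero)
      rw [h8, map_one]
    have h8 : (algebraMap K E ε₁) ^ (2 * m') = 1 := by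
      rw [← map_pow, pow_mul, sq, h.sign, one_pow, map_one]
    have h9 := h.ratio z (algebraMap K E ε₁) h6 (by
      rw [map_mul, map_sub, aeval_X, aeval_C, sub_self, zero_mul]) (2 * m') (by omega) (by
      rw [h8, mul_comm 2 m', pow_mul, h7, one_pow])
    rw [h9, aeval_algebraMap_apply_eq_algebraMap_eval, map_eq_zero] at hz
    exact not_root h.irreducible h.degree ε₁ hz
  have h3 := key N' 1 one_pos hvN' (by rw [pow_one]; exact hst' g₁) hne'
  obtain ⟨c, hc⟩ := h3 _ (hst' g₂ v hvN')
  exact h.square (isSquare_of_line h.nondeg h.symm (h.inv g₁) (h.inv g₂) h.charpoly₁ h.charpoly₂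
    hR1 hR2 h.eval_one h.eval_neg hvv hv hc)

end

end Pool.Agent.Y134.TF
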